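import Pool.Agent.Lib.MP_5349a4_pr.M.Iface3
import Pool.Agent.Lib.MP_5349a4_pr.M.Base

/-!
# Module INVM: measurability of the invasion; `wet` is a stopping set
-/

set_option autoImplicit false
open MeasureTheory Set
open scoped ENNReal NNReal

namespace Pool.Agent.Lib.MP_5349a4_pr.H84

section
variable {d : ℕ}

/-- membership in the configuration is measurable -/
theorem meas_pt (hS : MSumStatement) {α : Type} [MeasurableSpace α] {e : α → Eu d} {w : α → Cfg (Eu d)}
    (he : Measurable e) (hw : Measurable w) : MeasurableSet {a | e a ∈ pt (w a)} := by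
  have h1 := hS.2.1 (Eu d) (Eu d) (fun t p _ => p = t)
    (measurableSet_eq_fun (by fun_prop) (by fun_prop))
  have h2 : Measurable (fun a => (e a, w a)) := he.prodMk hw
  have h3 := h2 h1
  refine (congrArg MeasurableSet ?_).mp h3
  ext a
  simp only [mem_preimage, mem_ofPred_eq]
  constructor
  · rintro ⟨p, hp, rfl⟩
    exact hp
  · intro hp
    exact ⟨e a, hp, rfl⟩

theorem infEDist_lt_iff' {s : Set (Eu d)} {e : Eu d} {c : ℝ≥0∞} :
    Metric.infEDist e s < c ↔ ∃ p ∈ s, edist e p < c := Metric.infEDist_lt_iff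

theorem inv_sub (P : Set (Eu d)) (o : Eu d) (k : ℕ) : inv P o k ⊆ insert o P := by
  induction k with
  | zero =>
    intro p hp
    exact Or.inl hp
  | succ k ih =>
    rintro p (hp | hp)
    · exact ih hp
    · exact Or.inr hp.1.1

theorem o_mem_inv (P : Set (Eu d)) (o : Eu d) (k : ℕ) : o ∈ inv P o k := by
  induction k with
  | zero => rfl
  | succ k ih => exact Or.inl ih

theorem inv_succ (P : Set (Eu d)) (o : Eu d) (k : ℕ) : inv P o (k + 1) = inv P o k ∪
    {p | p ∈ P \ inv P o k ∧ Metric.infEDist p (inv P o k) = lab P o k} := rfl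

theorem lab_def (P : Set (Eu d)) (o : Eu d) (k : ℕ) :
    lab P o k = ⨅ q ∈ P \ inv P o k, Metric.infEDist q (inv P o k) := rfl

theorem inv_zero (P : Set (Eu d)) (o : Eu d) : inv P o 0 = {o} := rfl

attribute [local irreducible] inv lab

/-- distance to the invaded set -/
theorem meas_inf (hS : MSumStatement) (k : ℕ)
    (hk : MeasurableSet {q : Eu d × Eu d × Cfg (Eu d) | q.2.1 ∈ inv (pt q.2.2) q.1 k}) :
    Measurable (fun q : Eu d × Eu d × Cfg (Eu d) => Metric.infEDist q.2.1 (inv (pt q.2.2) q.1 k)) := by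
  refine measurable_of_Iio fun c => ?_
  have h1 := hS.2.1 (Eu d × Eu d) (Eu d) (fun t p P => p ∈ inv P t.1 k ∧ edist t.2 p < c) (by
    refine MeasurableSet.inter ?_ ?_
    · have : Measurable (fun q : (Eu d × Eu d) × Eu d × Cfg (Eu d) => (q.1.1, q.2.1, q.2.2)) := by
        fun_prop
      exact this hk
    · have : Measurable (fun q : (Eu d × Eu d) × Eu d × Cfg (Eu d) => edist q.1.2 q.2.1) :=
        Measurable.edist (by fun_prop) (by fun_prop)
      exact measurableSet_lt this measurable_const)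
  have h2 : Measurable (fun q : Eu d × Eu d × Cfg (Eu d) => ((q.1, q.2.1), q.2.2)) := by fun_prop
  have h3 := h2 h1
  have h4 : MeasurableSet {q : Eu d × Eu d × Cfg (Eu d) | edist q.2.1 q.1 < c} :=
    measurableSet_lt (by fun_prop) measurable_const
  refine (congrArg MeasurableSet ?_).mp (h4.union h3)
  ext q
  simp only [mem_union, mem_preimage, mem_ofPred_eq, mem_Iio, infEDist_lt_iff']
  constructor
  · rintro (h | ⟨p, -, hp, hc⟩)
    · exact ⟨q.1, o_mem_inv _ _ _, h⟩
    · exact ⟨p, hp, hc⟩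
  · rintro ⟨p, hp, hc⟩
    rcases inv_sub _ _ _ hp with rfl | hp'
    · exact Or.inl hc
    · exact Or.inr ⟨p, hp', hp, hc⟩

/-- the label -/
theorem meas_lab (hS : MSumStatement) (k : ℕ)
    (hk : MeasurableSet {q : Eu d × Eu d × Cfg (Eu d) | q.2.1 ∈ inv (pt q.2.2) q.1 k}) :
    Measurable (fun q : Eu d × Cfg (Eu d) => lab (pt q.2) q.1 k) := by
  refine measurable_of_Iio fun c => ?_
  have h0 := meas_inf hS k hk
  have h1 := hS.2.1 (Eu d) (Eu d) (fun t p P => p ∉ inv P t k ∧ Metric.infEDist p (inv P t k) < c)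
    (by
      refine MeasurableSet.inter ?_ ?_
      · exact hk.compl
      · exact measurableSet_lt h0 measurable_const)
  refine (congrArg MeasurableSet ?_).mp h1
  ext q
  simp only [mem_preimage, mem_ofPred_eq, mem_Iio, lab_def, iInf_lt_iff, mem_sdiff, exists_prop]
  constructor
  · rintro ⟨p, hp, h1, h2⟩
    exact ⟨p, ⟨hp, h1⟩, h2⟩
  · rintro ⟨p, ⟨hp, h1⟩, h2⟩
    exact ⟨p, hp, h1, h2⟩

theorem meas_lab' (k : ℕ) (h2 : Measurable (fun q : Eu d × Cfg (Eu d) => lab (pt q.2) q.1 k)) :
    Measurable (fun q : Eu d × Eu d × Cfg (Eu d) => lab (pt q.2.2) q.1 k) := by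
  have : Measurable (fun q : Eu d × Eu d × Cfg (Eu d) => (q.1, q.2.2)) := by fun_prop
  exact h2.comp this

theorem meas_inv (hS : MSumStatement) (k : ℕ) :
    MeasurableSet {q : Eu d × Eu d × Cfg (Eu d) | q.2.1 ∈ inv (pt q.2.2) q.1 k} := by
  induction k with
  | zero =>
    simp only [inv_zero, mem_singleton_iff]
    exact measurableSet_eq_fun (by fun_prop) (by fun_prop)
  | succ k ih =>
    have h1 := meas_inf hS k ih
    have h2 := meas_lab hS k ih
    have h3 := meas_lab' k h2
    have h4 : MeasurableSet {q : Eu d × Eu d × Cfg (Eu d) | q.2.1 ∈ pt q.2.2} :=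
      meas_pt hS (by fun_prop) (by fun_prop)
    have h5 : MeasurableSet {q : Eu d × Eu d × Cfg (Eu d) |
        Metric.infEDist q.2.1 (inv (pt q.2.2) q.1 k) = lab (pt q.2.2) q.1 k} :=
      measurableSet_eq_fun h1 h3
    have h6 := ih.union ((h4.diff ih).inter h5)
    refine (congrArg MeasurableSet ?_).mp h6
    ext q
    simp only [inv_succ, mem_union, mem_inter_iff, mem_sdiff, mem_ofPred_eq]

theorem nnew_zero (P : Set (Eu d)) (o : Eu d) (f : Eu d → ℝ≥0∞) : nnew P o 0 f = f o := by
  simp only [nnew, newp]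
  rw [tsum_singleton (f := f) o]

theorem newp_sub (P : Set (Eu d)) (o : Eu d) (k : ℕ) : newp P o (k + 1) ⊆ P := by
  rintro p ⟨hp, hn⟩
  rw [inv_succ] at hp
  rcases hp with hp | hp
  · exact absurd hp hn
  · exact hp.1.1

open Classical in
theorem nnew_succ (P : Set (Eu d)) (o : Eu d) (k : ℕ) (f : Eu d → ℝ≥0∞) :
    nnew P o (k + 1) f = ∑' p : P, ind ((p : Eu d) ∈ newp P o (k + 1)) * f p := by
  unfold nnew
  rw [tsum_subtype (newp P o (k + 1)) f,
    tsum_subtype P (fun p => ind (p ∈ newp P o (k + 1)) * f p)]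
  refine tsum_congr fun p => ?_
  by_cases h1 : p ∈ newp P o (k + 1)
  · simp [indicator, h1, newp_sub P o k h1, ind]
  · simp [indicator, h1, ind]

end

theorem invm (hS : MSumStatement) (hD : InvDStatement) : InvMStatement := by
  intro d k
  have hinv : ∀ j, MeasurableSet {q : Eu d × Eu d × Cfg (Eu d) | q.2.1 ∈ inv (pt q.2.2) q.1 j} :=
    fun j => meas_inv (d := d) hS j
  have hlab : ∀ j, Measurable (fun q : Eu d × Cfg (Eu d) => lab (pt q.2) q.1 j) :=
    fun j => meas_lab (d := d) hS j (hinv j)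
  have hinf : ∀ j, Measurable (fun q : Eu d × Eu d × Cfg (Eu d) =>
      Metric.infEDist q.2.1 (inv (pt q.2.2) q.1 j)) :=
    fun j => meas_inf (d := d) hS j (hinv j)
  have hlab' : ∀ j, Measurable (fun q : Eu d × Eu d × Cfg (Eu d) => lab (pt q.2.2) q.1 j) :=
    fun j => meas_lab' (d := d) j (hlab j)
  have hwet : MeasurableSet {q : Eu d × Eu d × Cfg (Eu d) | q.2.1 ∈ wet (pt q.2.2) q.1 k} := by
    have h1 : ∀ j, MeasurableSet {q : Eu d × Eu d × Cfg (Eu d) |
        Metric.infEDist q.2.1 (inv (pt q.2.2) q.1 j) ≤ lab (pt q.2.2) q.1 j} := by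
      intro j
      exact measurableSet_le (hinf j) (hlab' j)
    have h2 : MeasurableSet (⋃ j ∈ Finset.range k, {q : Eu d × Eu d × Cfg (Eu d) |
        Metric.infEDist q.2.1 (inv (pt q.2.2) q.1 j) ≤ lab (pt q.2.2) q.1 j}) :=
      Finset.measurableSet_biUnion _ fun j _ => h1 j
    refine (congrArg MeasurableSet ?_).mp h2
    ext q
    simp [wet]
  refine ⟨hinv k, hlab k, hwet, ?_, ?_, ?_⟩
  · intro th
    have h2 : MeasurableSet (⋂ j ∈ Finset.range k, {q : Eu d × Cfg (Eu d) |
        lab (pt q.2) q.1 j ≤ ENNReal.ofReal (th j)}) :=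
      Finset.measurableSet_biInter _ fun j _ => measurableSet_le (hlab j) measurable_const
    refine (congrArg MeasurableSet ?_).mp h2
    ext q
    simp [good]
  · intro T _ f hf
    cases k with
    | zero =>
      simp only [nnew_zero]
      have : Measurable (fun q : T × Eu d × Cfg (Eu d) => (q.1, q.2.1)) := by fun_prop
      exact hf.comp this
    | succ k =>
      simp only [nnew_succ]
      have h1 := hS.1 (T × Eu d) (Eu d) (fun t p P => ind (p ∈ newp P t.2 (k + 1)) * f t.1 p) (by
        refine Measurable.mul ?_ ?_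
        · refine measurable_ind ?_
          have h3 : MeasurableSet {q : Eu d × Eu d × Cfg (Eu d) |
              q.2.1 ∈ newp (pt q.2.2) q.1 (k + 1)} := (hinv (k + 1)).diff (hinv k)
          have h4 : Measurable (fun q : (T × Eu d) × Eu d × Cfg (Eu d) =>
            (q.1.2, q.2.1, q.2.2)) := by fun_prop
          exact h4 h3
        · have h4 : Measurable (fun q : (T × Eu d) × Eu d × Cfg (Eu d) =>
            (q.1.1, q.2.1)) := by fun_prop
          exact hf.comp h4)
      have h2 : Measurable (fun q : T × Eu d × Cfg (Eu d) => ((q.1, q.2.1), q.2.2)) := by fun_prop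
      exact h1.comp h2
  · intro o
    refine ⟨?_, ?_⟩
    · have h1 : Measurable (fun q : Eu d × Cfg (Eu d) => (o, q.1, q.2)) := by fun_prop
      exact h1 hwet
    · intro P Q hP hQ h
      have hLP : LF P := fun A _ => hP.subset inter_subset_left
      have hLQ : LF Q := fun A _ => hQ.subset inter_subset_left
      exact ((hD d P Q o hLP hLQ).2.2.1 k h).2.2

end Pool.Agent.Lib.MP_5349a4_pr.H84
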