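import Pool.Agent.Lib.MP_5349a4_pr.M.Iface2
import Pool.Agent.Lib.MP_5349a4_pr.M.Base

/-!
# Module SUBC: (3.2), (3.3) and the first facts of section 6
-/

set_option autoImplicit false
set_option linter.all false
open MeasureTheory Set Filter Topology
open scoped ENNReal NNReal

namespace Pool.Agent.Lib.MP_5349a4_pr.H84

theorem nontrivial_eu {d : ℕ} (hd : 1 ≤ d) : Nontrivial (Eu d) := by
  have : Nonempty (Fin d) := ⟨⟨0, by omega⟩⟩
  infer_instance

/-- from `M ≤ A + q M` -/
theorem ennreal_contr {M A q : ℝ≥0∞} (hM : M ≠ ∞) (hq : q < 1) (h : M ≤ A + q * M) :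
    (1 - q) * M ≤ A := by
  have hqM : q * M ≠ ∞ := ENNReal.mul_ne_top hq.ne_top hM
  rw [ENNReal.sub_mul (fun _ _ => hM), one_mul]
  exact tsub_le_iff_right.2 h

/-- the chi bound -/
theorem chi_bound {d : ℕ} (hd : 1 ≤ d) (hF : TauFacts d) (hSLB : SlbStatement) (lam : ℝ≥0) (s : ℝ)
    (hs : 0 ≤ s) (hphi : phi d lam s < 1) : (1 - phi d lam s) * chi d lam ≤ vol d lam s := by
  obtain ⟨h1, h2, h3, h4, h5, h6⟩ := hSLB d hd hF
  unfold chi
  rw [ENNReal.mul_iSup]
  apply iSup_le
  intro n
  set V : Set (Eu d) := bal (0 : Eu d) n with hV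
  have hVD : Dom V := dom_bal _ _
  set M : ℝ≥0∞ := ⨆ x ∈ V, wt lam V (fun _ => 1) x with hM
  have hbd : ∀ x, wt lam V (fun _ => 1) x ≤ 1 + lam * volume V := by
    intro x
    unfold wt
    gcongr
    calc ∫⁻ y in V, tau lam V x y * 1 ≤ ∫⁻ y in V, 1 := by
          apply lintegral_mono
          intro y
          show tau lam V x y * 1 ≤ 1
          rw [mul_one]
          exact hF.le_one lam V x y hVD
      _ = volume V := by simp
  have hMt : M ≠ ∞ := by
    have : M ≤ 1 + lam * volume V := iSup₂_le (fun x _ => hbd x)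
    refine (this.trans_lt ?_).ne
    exact ENNReal.add_lt_top.2 ⟨ENNReal.one_lt_top, ENNReal.mul_lt_top ENNReal.coe_lt_top
      hVD.2.measure_lt_top⟩
  have hstep : M ≤ vol d lam s + phi d lam s * M := by
    apply iSup₂_le
    intro x hx
    refine (h1 lam V (fun _ => 1) x s hVD measurable_const hs).trans ?_
    gcongr
    · rw [← h5 lam x s hs]
      exact h6 lam _ x _ _ (hVD.inter (dom_bal _ _)) (dom_bal _ _) Set.inter_subset_right
    · unfold phi
      rw [← lintegral_mul_const _ (h2 lam s hs).1]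
      apply lintegral_mono
      intro y
      dsimp only
      gcongr
      by_cases hy : x + y ∈ V
      · rw [ind_of hy, one_mul]
        exact le_iSup₂_of_le (x + y) hy le_rfl
      · rw [ind_not hy, zero_mul]
        exact zero_le
  have hfin := ennreal_contr hMt hphi hstep
  refine le_trans ?_ hfin
  gcongr
  have h0 : (0 : Eu d) ∈ V := by
    rw [hV]
    exact Metric.mem_closedBall_self (Nat.cast_nonneg n)
  exact le_iSup₂_of_le (f := fun x (_ : x ∈ V) => wt lam V (fun _ => 1) x) 0 h0 le_rfl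

theorem vol_ne_top {d : ℕ} (hF : TauFacts d) (lam : ℝ≥0) (s : ℝ) : vol d lam s ≠ ∞ := by
  unfold vol wt
  have hVD : Dom (bal (0 : Eu d) s) := dom_bal _ _
  have : ∫⁻ y in bal (0 : Eu d) s, tau lam (bal (0 : Eu d) s) 0 y * 1 ≤ volume (bal (0 : Eu d) s) := by
    calc ∫⁻ y in bal (0 : Eu d) s, tau lam (bal (0 : Eu d) s) 0 y * 1
        ≤ ∫⁻ y in bal (0 : Eu d) s, 1 := by
          apply lintegral_mono
          intro y
          show tau lam _ 0 y * 1 ≤ 1
          rw [mul_one]
          exact hF.le_one lam _ 0 y hVD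
      _ = volume (bal (0 : Eu d) s) := by simp
  refine (ENNReal.add_lt_top.2 ⟨ENNReal.one_lt_top, ENNReal.mul_lt_top ENNReal.coe_lt_top
    (this.trans_lt hVD.2.measure_lt_top)⟩).ne

theorem ex_le_tI {d : ℕ} (hd : 1 ≤ d) (hF : TauFacts d) (hTI : TInfStatement) (lam : ℝ≥0) (s : ℝ)
    (y : Eu d) : ex lam s y ≤ lam * tI lam y * ind (s < ‖y‖) := by
  obtain ⟨h1, h2, h3, h4, h5, h6, h7⟩ := hTI d hd hF lam
  unfold ex
  gcongr
  have := h4 (bal 0 s) 0 y (dom_bal _ _)
  rwa [sub_zero] at this

theorem subc (hSLB : SlbStatement) (hTI : TInfStatement) : SubcStatement := by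
  intro d hd hF
  haveI := nontrivial_eu hd
  have hmono : ∀ (lam lam' : ℝ≥0) (s : ℝ), 0 ≤ s → lam ≤ lam' →
      phi d lam s ≤ phi d lam' s := by
    intro lam lam' s hs hl
    unfold phi
    apply lintegral_mono
    intro y
    unfold ex
    dsimp only
    gcongr
    exact hF.monoL lam lam' _ _ _ (dom_bal _ _) hl
  refine ⟨?_, hmono, ?_, ?_, ?_⟩
  · intro lam s hs hphi h
    have h1 := chi_bound hd hF hSLB lam s hs hphi
    rw [h, ENNReal.mul_top] at h1
    · exact vol_ne_top hF lam s (top_le_iff.1 h1)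
    · exact (tsub_pos_of_lt hphi).ne'
  · intro L s₁
    have hb1 : volume (bal (0 : Eu d) s₁) ≠ ∞ := (dom_bal _ _).2.measure_lt_top.ne
    have hb2 : volume (bal (0 : Eu d) (s₁ + 1)) ≠ ∞ := (dom_bal _ _).2.measure_lt_top.ne
    refine ⟨(L * (volume (bal (0 : Eu d) s₁)).toNNReal + 1) *
      (volume (bal (0 : Eu d) (s₁ + 1))).toNNReal, ?_⟩
    intro lam lam' s hs hs1 hl hL
    set δ : ℝ≥0 := lam' - lam with hδ
    have hlam' : lam' = lam + δ := (add_tsub_cancel_of_le hl).symm
    have hpt : ∀ y : Eu d, ex lam' s y ≤ ex lam s y +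
        ((L * (volume (bal (0 : Eu d) s₁)).toNNReal + 1 : ℝ≥0) : ℝ≥0∞) * (δ : ℝ≥0∞) *
          ind (y ∈ bal (0 : Eu d) (s₁ + 1)) := by
      intro y
      by_cases hy : y ∈ bal (0 : Eu d) (s₁ + 1)
      · rw [ind_of hy, mul_one]
        unfold ex
        have hlip := hF.lip lam lam' (bal 0 s) 0 y (dom_bal _ _) hl
        have hone := hF.le_one lam' (bal 0 s) 0 y (dom_bal _ _)
        have hvol : volume (bal (0 : Eu d) s) ≤ volume (bal (0 : Eu d) s₁) :=
          measure_mono (Metric.closedBall_subset_closedBall hs1)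
        by_cases hi : s < ‖y‖
        · rw [ind_of hi, mul_one, mul_one]
          have e1 : (lam' : ℝ≥0∞) * tau lam' (bal 0 s) 0 y =
              lam * tau lam' (bal 0 s) 0 y + δ * tau lam' (bal 0 s) 0 y := by
            rw [← add_mul]
            congr 1
            rw [hlam']
            push_cast
            rfl
          rw [e1]
          calc (lam : ℝ≥0∞) * tau lam' (bal 0 s) 0 y + δ * tau lam' (bal 0 s) 0 y
              ≤ lam * (tau lam (bal 0 s) 0 y + δ * volume (bal (0 : Eu d) s)) + δ * 1 := by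
                gcongr
            _ ≤ lam * tau lam (bal 0 s) 0 y + L * (δ * volume (bal (0 : Eu d) s₁)) + δ * 1 := by
                rw [mul_add]
                gcongr
                exact hl.trans hL
            _ = lam * tau lam (bal 0 s) 0 y +
                ((L * (volume (bal (0 : Eu d) s₁)).toNNReal + 1 : ℝ≥0) : ℝ≥0∞) * (δ : ℝ≥0∞) := by
                push_cast
                rw [ENNReal.coe_toNNReal hb1]
                ring
        · rw [ind_not hi, mul_zero, mul_zero]
          exact zero_le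
      · rw [ind_not hy, mul_zero, add_zero]
        have hy' : s₁ + 1 < ‖y‖ := by
          by_contra hc
          apply hy
          show dist y 0 ≤ s₁ + 1
          rw [dist_zero_right]
          exact not_lt.1 hc
        unfold ex
        rw [hF.supp lam' (bal 0 s) 0 y s (dom_bal _ _) hs le_rfl, mul_zero, zero_mul]
        · exact zero_le
        · rw [dist_zero_left]
          linarith
    have hmeas : MeasurableSet (bal (0 : Eu d) (s₁ + 1)) := (dom_bal _ _).1
    have hm2 : Measurable (fun y : Eu d =>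
        ((L * (volume (bal (0 : Eu d) s₁)).toNNReal + 1 : ℝ≥0) : ℝ≥0∞) * (δ : ℝ≥0∞) *
          ind (y ∈ bal (0 : Eu d) (s₁ + 1))) := (measurable_ind hmeas).const_mul _
    have hmi : Measurable (fun y : Eu d => ind (y ∈ bal (0 : Eu d) (s₁ + 1))) :=
      measurable_ind hmeas
    calc phi d lam' s ≤ ∫⁻ y : Eu d, (ex lam s y +
        ((L * (volume (bal (0 : Eu d) s₁)).toNNReal + 1 : ℝ≥0) : ℝ≥0∞) * (δ : ℝ≥0∞) *
          ind (y ∈ bal (0 : Eu d) (s₁ + 1))) := lintegral_mono hpt
      _ = phi d lam s + ((L * (volume (bal (0 : Eu d) s₁)).toNNReal + 1 : ℝ≥0) : ℝ≥0∞) *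
          (δ : ℝ≥0∞) * volume (bal (0 : Eu d) (s₁ + 1)) := by
          rw [lintegral_add_right _ hm2, lintegral_const_mul _ hmi,
            lintegral_ind (p := fun y : Eu d => y ∈ bal (0 : Eu d) (s₁ + 1)) hmeas]
          rfl
      _ = _ := by
          push_cast
          rw [ENNReal.coe_toNNReal hb1, ENNReal.coe_toNNReal hb2]
          ring
  · intro lam hchi ε hε
    obtain ⟨t1, t2, t3, t4, t5, t6, t7⟩ := hTI d hd hF lam
    have hfin : (lam : ℝ≥0∞) * ∫⁻ z : Eu d, tI lam z ≠ ∞ := by
      intro h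
      rw [h] at t6
      exact hchi (by rw [t6]; simp)
    let μ : Measure (Eu d) := volume.withDensity (fun y => (lam : ℝ≥0∞) * tI lam y)
    have hμ : μ univ ≠ ∞ := by
      show (volume.withDensity (fun y => (lam : ℝ≥0∞) * tI lam y)) univ ≠ ∞
      rw [withDensity_apply _ MeasurableSet.univ, Measure.restrict_univ,
        lintegral_const_mul _ t1]
      exact hfin
    have hmeasn : ∀ s : ℝ, MeasurableSet {y : Eu d | s < ‖y‖} := fun s =>
      measurableSet_lt measurable_const measurable_norm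
    have htend : Tendsto (fun n : ℕ => μ {y : Eu d | (n : ℝ) < ‖y‖}) atTop
        (𝓝 (μ (⋂ n : ℕ, {y : Eu d | (n : ℝ) < ‖y‖}))) := by
      apply tendsto_measure_iInter_atTop
      · intro n
        exact (hmeasn _).nullMeasurableSet
      · intro m n hmn y hy
        have h1 : (n : ℝ) < ‖y‖ := hy
        have h2 : (m : ℝ) ≤ n := by exact_mod_cast hmn
        exact lt_of_le_of_lt h2 h1
      · exact ⟨0, ((measure_mono (subset_univ _)).trans_lt (lt_top_iff_ne_top.2 hμ)).ne⟩
    have hempty : (⋂ n : ℕ, {y : Eu d | (n : ℝ) < ‖y‖}) = ∅ := by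
      ext y
      simp only [mem_iInter, mem_setOf_eq, mem_empty_iff_false, iff_false, not_forall, not_lt]
      exact exists_nat_ge ‖y‖
    rw [hempty, measure_empty] at htend
    have hε' : (0 : ℝ≥0∞) < ε := by exact_mod_cast hε
    obtain ⟨n, hn⟩ := ((tendsto_order.1 htend).2 _ hε').exists
    refine ⟨n, ?_⟩
    intro lam' s hl hs
    have hs0 : (0 : ℝ) ≤ s := le_trans (by positivity) hs
    refine (hmono lam' lam s hs0 hl).trans ?_
    refine le_trans ?_ hn.le
    calc phi d lam s ≤ ∫⁻ y : Eu d, lam * tI lam y * ind (s < ‖y‖) :=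
          lintegral_mono (fun y => ex_le_tI hd hF hTI lam s y)
      _ = ∫⁻ y : Eu d, ind (y ∈ {y : Eu d | s < ‖y‖}) * (lam * tI lam y) := by
          congr 1
          funext y
          rw [mul_comm]
          rfl
      _ = μ {y : Eu d | s < ‖y‖} := by
          rw [lintegral_mul_ind (hmeasn s), ← withDensity_apply _ (hmeasn s)]
      _ ≤ μ {y : Eu d | (n : ℝ) < ‖y‖} := by
          apply measure_mono
          intro y hy
          exact lt_of_le_of_lt (by simpa using hs) (show s < ‖y‖ from hy)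
  · intro lam hlam s hs
    obtain ⟨h1, h2, h3, h4, h5, h6⟩ := hSLB d hd hF
    obtain ⟨t1, t2, t3, t4, t5, t6, t7⟩ := hTI d hd hF lam
    have hp0 : phi d lam 0 ≤ 1 / 2 := by rw [h3]; exact hlam
    have hp1 : phi d lam 0 < 1 := hp0.trans_lt (by norm_num)
    have hc := chi_bound hd hF hSLB lam 0 le_rfl hp1
    have hv : vol d lam 0 = 1 := by
      unfold vol wt
      have h0 : volume (bal (0 : Eu d) 0) = 0 := by
        unfold bal
        rw [Metric.closedBall_zero]
        exact measure_singleton 0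
      rw [Measure.restrict_eq_zero.2 h0, lintegral_zero_measure, mul_zero, add_zero]
    rw [hv] at hc
    have hhalf : (1 / 2 : ℝ≥0∞) ≤ 1 - phi d lam 0 := by
      apply ENNReal.le_sub_of_add_le_left (hp1.ne_top)
      calc phi d lam 0 + 1 / 2 ≤ 1 / 2 + 1 / 2 := by gcongr
        _ = 1 := ENNReal.add_halves 1
    have hc2 : (1 / 2 : ℝ≥0∞) * chi d lam ≤ 1 := le_trans (by gcongr) hc
    have hc3 : chi d lam ≤ 2 := by
      calc chi d lam = 2 * ((1 / 2 : ℝ≥0∞) * chi d lam) := by
            rw [← mul_assoc, one_div, ENNReal.mul_inv_cancel (by norm_num) (by norm_num), one_mul]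
        _ ≤ 2 * 1 := by gcongr
        _ = 2 := mul_one 2
    rw [t6] at hc3
    have hc4 : (lam : ℝ≥0∞) * ∫⁻ z : Eu d, tI lam z ≤ 1 := by
      have h12 : (2 : ℝ≥0∞) = 1 + 1 := by norm_num
      exact (ENNReal.add_le_add_iff_left ENNReal.one_ne_top).1 (hc3.trans h12.le)
    refine le_trans ?_ hc4
    rw [← lintegral_const_mul _ t1]
    apply lintegral_mono
    intro y
    refine (ex_le_tI hd hF hTI lam s y).trans ?_
    calc (lam : ℝ≥0∞) * tI lam y * ind (s < ‖y‖) ≤ lam * tI lam y * 1 := by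
          gcongr
          exact ind_le_one _
      _ = lam * tI lam y := mul_one _

end Pool.Agent.Lib.MP_5349a4_pr.H84
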