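import Pool.Agent.Lib.MP_5349a4_pr.M.Iface2
import Pool.Agent.Lib.MP_5349a4_pr.M.Base

/-!
# Module TINF: elementary facts about `tI`
-/

set_option autoImplicit false
set_option linter.all false
open MeasureTheory Set Filter Topology
open scoped ENNReal NNReal

namespace Pool.Agent.Lib.MP_5349a4_pr.H84

section

variable {d : ℕ}

theorem bal_mono {x : Eu d} {r s : ℝ} (h : r ≤ s) : bal x r ⊆ bal x s :=
  Metric.closedBall_subset_closedBall h

theorem tau_bal_mono (hF : TauFacts d) (lam : ℝ≥0) (z : Eu d) :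
    Monotone (fun n : ℕ => tau lam (bal (0 : Eu d) (n : ℝ)) 0 z) := by
  intro m n hmn
  exact hF.mono lam _ _ _ _ (dom_bal _ _) (dom_bal _ _) (bal_mono (by exact_mod_cast hmn))

theorem meas_tau0 (hF : TauFacts d) (lam : ℝ≥0) (n : ℕ) :
    Measurable (fun z : Eu d => tau lam (bal (0 : Eu d) (n : ℝ)) 0 z) := by
  have h1 : Measurable fun q : Eu d × Eu d => tau lam (bal (0 : Eu d) (n : ℝ)) q.1 q.2 :=
    hF.meas lam (bal (0 : Eu d) (n : ℝ)) (dom_bal _ _)
  exact Measurable.of_uncurry_left (f := fun x z => tau lam (bal (0 : Eu d) (n : ℝ)) x z) h1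

/-- monotone convergence for the truncated two-point function -/
theorem lintegral_tI (hF : TauFacts d) (lam : ℝ≥0) (w : Eu d → ℝ≥0∞) (hw : Measurable w) :
    ∫⁻ z : Eu d, tI lam z * w z =
      ⨆ n : ℕ, ∫⁻ z in bal (0 : Eu d) (n : ℝ), tau lam (bal (0 : Eu d) (n : ℝ)) 0 z * w z := by
  have hm : ∀ n : ℕ, Measurable (fun z : Eu d => tau lam (bal (0 : Eu d) (n : ℝ)) 0 z) := by
    intro n
    exact meas_tau0 hF lam n
  have hpt : ∀ z : Eu d, tI lam z * w z =
      ⨆ n : ℕ, ind (z ∈ bal (0 : Eu d) (n : ℝ)) * (tau lam (bal (0 : Eu d) (n : ℝ)) 0 z * w z) := by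
    intro z
    apply le_antisymm
    · unfold tI
      rw [ENNReal.iSup_mul]
      apply iSup_le
      intro n
      obtain ⟨m, hm⟩ := exists_nat_ge ‖z‖
      refine le_trans ?_ (le_iSup _ (max n m))
      have hz : z ∈ bal (0 : Eu d) ((max n m : ℕ) : ℝ) := by
        show dist z 0 ≤ _
        rw [dist_zero_right]
        refine hm.trans ?_
        exact_mod_cast le_max_right n m
      rw [ind_of hz, one_mul]
      gcongr
      exact tau_bal_mono hF lam z (le_max_left n m)
    · apply iSup_le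
      intro n
      calc ind (z ∈ bal (0 : Eu d) (n : ℝ)) * (tau lam (bal (0 : Eu d) (n : ℝ)) 0 z * w z)
          ≤ 1 * (tau lam (bal (0 : Eu d) (n : ℝ)) 0 z * w z) := by
            gcongr
            exact ind_le_one _
        _ = tau lam (bal (0 : Eu d) (n : ℝ)) 0 z * w z := one_mul _
        _ ≤ tI lam z * w z := by
            gcongr
            exact le_iSup (fun n : ℕ => tau lam (bal (0 : Eu d) (n : ℝ)) 0 z) n
  calc ∫⁻ z : Eu d, tI lam z * w z
      = ∫⁻ z : Eu d, ⨆ n : ℕ, ind (z ∈ bal (0 : Eu d) (n : ℝ)) *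
          (tau lam (bal (0 : Eu d) (n : ℝ)) 0 z * w z) := by
        congr 1
        funext z
        exact hpt z
    _ = ⨆ n : ℕ, ∫⁻ z : Eu d, ind (z ∈ bal (0 : Eu d) (n : ℝ)) *
          (tau lam (bal (0 : Eu d) (n : ℝ)) 0 z * w z) := by
        apply lintegral_iSup
        · intro n
          exact (measurable_ind (dom_bal _ _).1).mul ((hm n).mul hw)
        · intro m n hmn z
          dsimp only
          have h1 : (z ∈ bal (0 : Eu d) (m : ℝ)) → (z ∈ bal (0 : Eu d) (n : ℝ)) :=
            fun h => bal_mono (by exact_mod_cast hmn) h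
          have h2 := tau_bal_mono hF lam z hmn
          dsimp only at h2
          gcongr ?_ * (?_ * _)
          exact ind_mono h1
    _ = _ := by
        congr 1
        funext n
        exact lintegral_mul_ind (dom_bal _ _).1 _

end

theorem tinf : TInfStatement := by
  intro d hd hF lam
  have hmeas : Measurable (tI lam : Eu d → ℝ≥0∞) := by
    unfold tI
    apply Measurable.iSup
    intro n
    exact meas_tau0 hF lam n
  have hle : ∀ (V : Set (Eu d)) (x y : Eu d), Dom V → tau lam V x y ≤ tI lam (y - x) := by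
    intro V x y hV
    let e : Eu d ≃ᵢ Eu d := IsometryEquiv.addRight (-x)
    have he : ∀ z, e z = z - x := fun z => (sub_eq_add_neg z x).symm
    have h1 := hF.iso lam V x y e hV
    rw [he, he, sub_self] at h1
    rw [← h1]
    have hb : Bornology.IsBounded (e '' V) := e.isometry.lipschitz.isBounded_image hV.2
    have hms : MeasurableSet (e '' V) :=
      (e.toHomeomorph.measurableEmbedding.measurableSet_image).2 hV.1
    obtain ⟨r, hr⟩ := hb.subset_closedBall 0
    obtain ⟨n, hn⟩ := exists_nat_ge r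
    refine le_trans (hF.mono lam _ (bal 0 (n : ℝ)) _ _ ⟨hms, hb⟩ (dom_bal _ _)
      (hr.trans (Metric.closedBall_subset_closedBall hn))) ?_
    exact le_iSup (fun n : ℕ => tau lam (bal (0 : Eu d) (n : ℝ)) 0 (y - x)) n
  refine ⟨hmeas, ?_, ?_, hle, ?_, ?_, ?_⟩
  · intro z
    exact iSup_le (fun n => hF.le_one lam _ _ _ (dom_bal _ _))
  · intro z
    unfold tI
    congr 1
    funext n
    let e : Eu d ≃ᵢ Eu d := IsometryEquiv.neg (Eu d)
    have h1 := hF.iso lam (bal 0 (n : ℝ)) 0 z e (dom_bal _ _)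
    have h2 : e '' (bal (0 : Eu d) (n : ℝ)) = bal (0 : Eu d) (n : ℝ) := by
      ext w
      constructor
      · rintro ⟨v, hv, rfl⟩
        have hv' : dist v 0 ≤ n := hv
        show dist (-v) 0 ≤ n
        rw [dist_zero_right, norm_neg]
        rwa [dist_zero_right] at hv'
      · intro hw
        refine ⟨-w, ?_, neg_neg w⟩
        have hw' : dist w 0 ≤ n := hw
        show dist (-w) 0 ≤ n
        rw [dist_zero_right, norm_neg]
        rwa [dist_zero_right] at hw'
    rw [h2] at h1
    have h3 : e 0 = 0 := neg_zero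
    have h4 : e z = -z := rfl
    rw [h3, h4] at h1
    exact h1
  · intro z
    unfold tI
    apply iSup_le
    intro n
    refine (hF.union lam (bal 0 (n : ℝ)) 0 z (dom_bal _ _)).trans ?_
    rw [dist_zero_left]
    gcongr
    unfold conv
    have h1 : ∫⁻ u : Eu d, ind (‖u‖ ≤ 1) * tI lam (z - u) =
        ∫⁻ u : Eu d, ind (‖z - u‖ ≤ 1) * tI lam u := by
      rw [← lintegral_sub_left_eq_self (fun u : Eu d => ind (‖z - u‖ ≤ 1) * tI lam u) z]
      congr 1
      funext u
      rw [sub_sub_cancel]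
    have h2 : ∫⁻ u : Eu d, ind (‖z - u‖ ≤ 1) * tI lam u = ∫⁻ u in bal z 1, tI lam u := by
      rw [← lintegral_mul_ind (dom_bal _ _).1]
      congr 1
      funext u
      congr 1
      apply ind_congr
      show ‖z - u‖ ≤ 1 ↔ dist u z ≤ 1
      rw [dist_comm, dist_eq_norm]
    show ∫⁻ u in bal 0 (n : ℝ) ∩ bal z 1, tau lam (bal 0 (n : ℝ)) 0 u ≤
      ∫⁻ u : Eu d, ind (‖u‖ ≤ 1) * tI lam (z - u)
    rw [h1, h2]
    calc ∫⁻ u in bal 0 (n : ℝ) ∩ bal z 1, tau lam (bal 0 (n : ℝ)) 0 u
        ≤ ∫⁻ u in bal z 1, tau lam (bal 0 (n : ℝ)) 0 u :=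
          lintegral_mono_set inter_subset_right
      _ ≤ ∫⁻ u in bal z 1, tI lam u := by
          apply lintegral_mono
          intro u
          have := hle (bal 0 (n : ℝ)) 0 u (dom_bal _ _)
          rwa [sub_zero] at this
  · unfold chi vol wt
    rw [← ENNReal.add_iSup, ← ENNReal.mul_iSup]
    congr 2
    have := lintegral_tI hF lam (fun _ => 1) measurable_const
    simp only [mul_one] at this ⊢
    exact this.symm
  · intro R c hc
    have h1 : ∫⁻ z in bal (0 : Eu d) R, tI lam z =
        ∫⁻ z : Eu d, tI lam z * ind (z ∈ bal (0 : Eu d) R) := by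
      rw [← lintegral_mul_ind (dom_bal _ _).1]
      congr 1
      funext z
      rw [mul_comm]
    have h2 := lintegral_tI hF lam (fun z : Eu d => ind (z ∈ bal (0 : Eu d) R))
      (measurable_ind (dom_bal _ _).1)
    rw [h1, h2, ENNReal.mul_iSup]
    apply iSup_le
    intro n
    refine le_trans ?_ (hc (bal 0 (n : ℝ)) (dom_bal _ _))
    unfold wt
    exact le_add_self

end Pool.Agent.Lib.MP_5349a4_pr.H84
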